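import Pool.Agent.IDE.Z4

set_option autoImplicit false

namespace Pool.Agent.Results.MP_3a832c_nt.AllShifts

open Finset MeasureTheory Filter

/-- The set `E_q` of the problem, for the set `I` of residues: the `x ∈ [0,1]` such that
`‖x - (a+γ)/q‖ ≤ ψ(q)/q` for at least one `a ∈ I`; `‖t‖ = |t - round t|` is the distance of `t` to
the nearest integer. -/
def E (γ : ℝ) (ψ : ℕ → ℝ) (I : Finset ℕ) (q : ℕ) : Set ℝ :=
  {x | x ∈ Set.Icc (0 : ℝ) 1 ∧ ∃ a ∈ I,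
    |(x - ((a : ℝ) + γ) / q) - round (x - ((a : ℝ) + γ) / q)| ≤ ψ q / q}

/-- The level of `q`: for `0 < ψ q < 1/2` the integer `k` with `2^(-k) ≤ ψ(q)/q < 2^(1-k)`. -/
noncomputable def level (ψ : ℕ → ℝ) (q : ℕ) : ℕ := ⌈Real.logb 2 (q / ψ q)⌉₊

/-- `N_k`: the number of dyadic intervals `[2^j, 2^(j+1))` which contain some `q` of level `k` with
`0 < ψ q < 1/2`. -/
noncomputable def N (ψ : ℕ → ℝ) (k : ℕ) : ℕ :=
  Set.ncard {j : ℕ | ∃ q : ℕ, 1 ≤ q ∧ Nat.log 2 q = j ∧ 0 < ψ q ∧ ψ q < 1 / 2 ∧ level ψ q = k}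

/-- `Λ_k = 1 + min (log N_k, log (1 + log (k+1)))` (with `log 0 = 0`). -/
noncomputable def La (ψ : ℕ → ℝ) (k : ℕ) : ℝ :=
  1 + min (Real.log (N ψ k)) (Real.log (1 + Real.log ((k : ℝ) + 1)))

theorem one_le_La (ψ : ℕ → ℝ) (k : ℕ) : 1 ≤ La ψ k := by
  unfold La
  have h1 : 0 ≤ Real.log (N ψ k) := Real.log_natCast_nonneg _
  have h2 : 0 ≤ Real.log ((k : ℝ) + 1) := Real.log_nonneg (by
    have : (0 : ℝ) ≤ k := Nat.cast_nonneg k
    linarith)
  have h3 : 0 ≤ Real.log (1 + Real.log ((k : ℝ) + 1)) := Real.log_nonneg (by linarith)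
  have := le_min h1 h3
  linarith

theorem level_spec (ψ : ℕ → ℝ) (q : ℕ) (hq : 1 ≤ q) (h0 : 0 < ψ q) (h1 : ψ q < 1 / 2) :
    (1 / 2 : ℝ) ^ level ψ q ≤ ψ q / q ∧ ψ q / q < 2 * (1 / 2 : ℝ) ^ level ψ q := by
  have hq0 : (0 : ℝ) < q := by exact_mod_cast hq
  have hq1 : (1 : ℝ) ≤ q := by exact_mod_cast hq
  have hr : 0 < (q : ℝ) / ψ q := div_pos hq0 h0
  have hr2 : (2 : ℝ) < (q : ℝ) / ψ q := by
    rw [lt_div_iff₀ h0]; linarith
  have hlog : 0 < Real.logb 2 ((q : ℝ) / ψ q) := Real.logb_pos (by norm_num) (by linarith)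
  set k := level ψ q with hk
  have h2 : Real.logb 2 ((q : ℝ) / ψ q) ≤ k := Nat.le_ceil _
  have h3 : (k : ℝ) < Real.logb 2 ((q : ℝ) / ψ q) + 1 := Nat.ceil_lt_add_one hlog.le
  have h4 : (q : ℝ) / ψ q ≤ (2 : ℝ) ^ k := by
    have := (Real.logb_le_iff_le_rpow (by norm_num : (1:ℝ) < 2) hr).1 h2
    rwa [Real.rpow_natCast] at this
  have h5 : (2 : ℝ) ^ k < 2 * ((q : ℝ) / ψ q) := by
    have h6 : (k : ℝ) - 1 < Real.logb 2 ((q : ℝ) / ψ q) := by linarith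
    have h7 := (Real.lt_logb_iff_rpow_lt (by norm_num : (1:ℝ) < 2) hr).1 h6
    rw [Real.rpow_sub_one (by norm_num), Real.rpow_natCast] at h7
    linarith
  have h2k : (0 : ℝ) < (2 : ℝ) ^ k := by positivity
  have hinv : (1 / 2 : ℝ) ^ k = 1 / (2 : ℝ) ^ k := by rw [one_div_pow]
  constructor
  · rw [hinv, div_le_div_iff₀ h2k hq0, one_mul]
    rw [div_le_iff₀ h0] at h4
    linarith
  · rw [hinv, mul_one_div, div_lt_div_iff₀ hq0 h2k]
    have h8 : (2 : ℝ) ^ k * ψ q < 2 * (q : ℝ) := by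
      have := mul_lt_mul_of_pos_right h5 h0
      have h9 : 2 * ((q : ℝ) / ψ q) * ψ q = 2 * q := by field_simp
      linarith
    linarith

theorem finite_sizes (ψ : ℕ → ℝ) (k : ℕ) :
    {j : ℕ | ∃ q : ℕ, 1 ≤ q ∧ Nat.log 2 q = j ∧ 0 < ψ q ∧ ψ q < 1 / 2 ∧
      level ψ q = k}.Finite := by
  have hsub : {j : ℕ | ∃ q : ℕ, 1 ≤ q ∧ Nat.log 2 q = j ∧ 0 < ψ q ∧ ψ q < 1 / 2 ∧
      level ψ q = k} ⊆ (Finset.range (k + 1) : Finset ℕ) := by
    rintro j ⟨q, hq, rfl, h0, h1, rfl⟩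
    obtain ⟨h2, -⟩ := level_spec ψ q hq h0 h1
    have hq0 : (0 : ℝ) < q := by exact_mod_cast hq
    have h2k : (0 : ℝ) < (2 : ℝ) ^ level ψ q := by positivity
    have h3 : (q : ℝ) < (2 : ℝ) ^ level ψ q := by
      rw [one_div_pow, div_le_div_iff₀ h2k hq0, one_mul] at h2
      nlinarith
    have h4 : q < 2 ^ level ψ q := by exact_mod_cast h3
    have h5 : Nat.log 2 q < level ψ q := (Nat.log_lt_iff_lt_pow (by norm_num) (by omega)).2 h4
    simp only [Finset.coe_range, Set.mem_Iio]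
    omega
  exact (Finset.finite_toSet _).subset hsub

theorem card_le_N (ψ : ℕ → ℝ) (F : Finset ℕ) (k : ℕ)
    (hF : ∀ q ∈ F, 1 ≤ q ∧ 0 < ψ q ∧ ψ q < 1 / 2 ∧ level ψ q = k) :
    (F.image (Nat.log 2)).card ≤ N ψ k := by
  have h1 : ((F.image (Nat.log 2) : Finset ℕ) : Set ℕ) ⊆
      {j : ℕ | ∃ q : ℕ, 1 ≤ q ∧ Nat.log 2 q = j ∧ 0 < ψ q ∧ ψ q < 1 / 2 ∧ level ψ q = k} := by
    intro j hj
    rw [Finset.mem_coe, Finset.mem_image] at hj
    obtain ⟨q, hq, rfl⟩ := hj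
    obtain ⟨h1, h2, h3, h4⟩ := hF q hq
    exact ⟨q, h1, rfl, h2, h3, h4⟩
  have h2 := Set.ncard_le_ncard h1 (finite_sizes ψ k)
  rw [Set.ncard_coe_finset] at h2
  exact h2

theorem limsup_eq (γ : ℝ) (ψ : ℕ → ℝ) :
    limsup (fun q : ℕ => E γ ψ (Finset.range q) q) atTop = Pool.Agent.IDS.LimSet γ ψ := by
  ext x
  rw [Filter.mem_limsup_iff_frequently_mem]
  unfold Pool.Agent.IDS.LimSet
  simp only [Set.mem_setOf_eq]
  constructor
  · intro h
    obtain ⟨q, hq⟩ := h.exists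
    refine ⟨hq.1, h.mono ?_⟩
    rintro q ⟨-, a, ha, hle⟩
    rw [Finset.mem_range] at ha
    exact ⟨by omega, a, ha, hle⟩
  · rintro ⟨hx, h⟩
    refine h.mono ?_
    rintro q ⟨-, a, ha, hle⟩
    exact ⟨hx, a, Finset.mem_range.2 ha, hle⟩

/-- **Inhomogeneous Duffin-Schaeffer property for every real shift, with a triple logarithmic loss at
most.**  Let `γ` be any real number, `ψ ≥ 0`, `ε > 0`, and
`∑_q φ(q) ψ(q) / (q Λ_{k(q)}^ε) = ∞`, where `k(q)` is the level of `q` and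
`Λ_k = 1 + min (log N_k, log (1 + log (k+1)))`, `N_k` the number of dyadic sizes of the integers of
level `k`.  Then for almost every `x ∈ [0,1]` there are infinitely many `q` with `x ∈ E_q`, where
`I_q = {0, ..., q-1}`. -/
theorem result (γ : ℝ) (ψ : ℕ → ℝ)
    (hψ : ∀ q, 0 ≤ ψ q) (ε : ℝ) (hε : 0 < ε)
    (hdiv : ¬ Summable (fun q : ℕ =>
      (Nat.totient q : ℝ) * ψ q / q / (La ψ (level ψ q)) ^ ε)) :
    volume (limsup (fun q : ℕ => E γ ψ (Finset.range q) q) atTop) = 1 := by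
  rw [limsup_eq]
  refine Pool.Agent.IDE.main_general γ ψ hψ ε hε (La ψ) (one_le_La ψ)
    (level ψ) (fun q hq h0 h1 => level_spec ψ q hq h0 h1) ?_ hdiv
  intro F k hF
  have hcard := card_le_N ψ F k hF
  have hlog : Real.log ((F.image (Nat.log 2)).card : ℝ) ≤ Real.log (N ψ k) := by
    rcases Nat.eq_zero_or_pos (F.image (Nat.log 2)).card with h0 | h0
    · rw [h0]
      simp only [Nat.cast_zero, Real.log_zero]
      exact Real.log_natCast_nonneg _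
    · exact Real.log_le_log (by exact_mod_cast h0) (by exact_mod_cast hcard)
  unfold La
  rcases le_total (Real.log (N ψ k)) (Real.log (1 + Real.log ((k : ℝ) + 1))) with h | h
  · left
    rw [min_eq_left h]
    linarith
  · right
    rw [min_eq_right h]

/-- Corollary: comparable sizes at comparable values of `ψ(q)/q`, under the exact condition
`∑ φ(q) ψ(q)/q = ∞`. -/
theorem comparable (γ : ℝ) (ψ : ℕ → ℝ)
    (hψ : ∀ q, 0 ≤ ψ q) (B : ℝ)
    (hB : ∀ q r : ℕ, 1 ≤ q → 1 ≤ r → 0 < ψ q → 0 < ψ r → ψ q / q ≤ 2 * (ψ r / r) →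
      ψ r / r ≤ 2 * (ψ q / q) → (q : ℝ) ≤ B * r)
    (hdiv : ¬ Summable (fun q : ℕ => (Nat.totient q : ℝ) * ψ q / q)) :
    volume (limsup (fun q : ℕ => E γ ψ (Finset.range q) q) atTop) = 1 := by
  rw [limsup_eq]
  exact Pool.Agent.IDE.main_comparable γ ψ hψ B hB hdiv

/-- Corollary: `ψ` non-increasing on its support (an arbitrary set `S`). -/
theorem antitone_on_support (γ : ℝ) (ψ : ℕ → ℝ)
    (hψ : ∀ q, 0 ≤ ψ q) (hmono : ∀ q r : ℕ, q ≤ r → 0 < ψ q → 0 < ψ r → ψ r ≤ ψ q)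
    (hdiv : ¬ Summable (fun q : ℕ => (Nat.totient q : ℝ) * ψ q / q)) :
    volume (limsup (fun q : ℕ => E γ ψ (Finset.range q) q) atTop) = 1 := by
  refine comparable γ ψ hψ 2 ?_ hdiv
  intro q r hq hr h0 h1 _ h3
  have hq0 : (0 : ℝ) < q := by exact_mod_cast hq
  have hr0 : (0 : ℝ) < r := by exact_mod_cast hr
  rcases le_total q r with h | h
  · have : (q : ℝ) ≤ r := by exact_mod_cast h
    linarith
  · have h4 := hmono r q h h1 h0
    rw [mul_div_assoc', div_le_div_iff₀ hr0 hq0] at h3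
    have h5 : ψ r * q ≤ ψ r * (2 * r) := by nlinarith
    exact le_of_mul_le_mul_left h5 h1

/-- Corollary: extra divergence by an arbitrarily small power of the triple logarithm of `q/ψ(q)`, for
every `ψ` and every real `γ`. -/
theorem logloglog_power (γ : ℝ) (ψ : ℕ → ℝ)
    (hψ : ∀ q, 0 ≤ ψ q) (ε : ℝ) (hε : 0 < ε)
    (hdiv : ¬ Summable (fun q : ℕ => (Nat.totient q : ℝ) * ψ q / q /
      (1 + Real.log (1 + Real.log (1 + Real.log (1 + q / ψ q)))) ^ ε)) :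
    volume (limsup (fun q : ℕ => E γ ψ (Finset.range q) q) atTop) = 1 := by
  rw [limsup_eq]
  exact Pool.Agent.IDE.main_logloglog γ ψ hψ ε hε hdiv

end Pool.Agent.Results.MP_3a832c_nt.AllShifts
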