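import Pool.Agent.IDF.Z5

set_option autoImplicit false

namespace Pool.Agent.Results.MP_3a832c_nt.DenseLevels

open Finset MeasureTheory Filter

/-- The set `E_q` of the problem, for the set `I` of residues: the `x ∈ [0,1]` such that
`‖x - (a+γ)/q‖ ≤ ψ(q)/q` for at least one `a ∈ I`; `‖t‖ = |t - round t|` is the distance of `t` to
the nearest integer. -/
def E (γ : ℝ) (ψ : ℕ → ℝ) (I : Finset ℕ) (q : ℕ) : Set ℝ :=
  {x | x ∈ Set.Icc (0 : ℝ) 1 ∧ ∃ a ∈ I,
    |(x - ((a : ℝ) + γ) / q) - round (x - ((a : ℝ) + γ) / q)| ≤ ψ q / q}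

/-- The level of `q`: for `0 < ψ q < 1/2` the integer `k` with `2^(-k) ≤ ψ(q)/q < 2^(1-k)`. -/
noncomputable def level (ψ : ℕ → ℝ) (q : ℕ) : ℕ := ⌈Real.logb 2 (q / ψ q)⌉₊

/-- A set `K` of levels is sparse if it has at most `C (1 + log (1 + log (x + 1)))^10240` elements
up to `x`, for some constant `C` and all `x`. -/
def Sparse (K : Set ℕ) : Prop :=
  ∃ C : ℝ, ∀ x : ℕ, (Set.ncard {k : ℕ | k ∈ K ∧ k ≤ x} : ℝ) ≤
    C * (1 + Real.log (1 + Real.log ((x : ℝ) + 1))) ^ 10240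

theorem level_spec (ψ : ℕ → ℝ) (q : ℕ) (hq : 1 ≤ q) (h0 : 0 < ψ q) (h1 : ψ q < 1 / 2) :
    (1 / 2 : ℝ) ^ level ψ q ≤ ψ q / q ∧ ψ q / q < 2 * (1 / 2 : ℝ) ^ level ψ q := by
  have hq0 : (0 : ℝ) < q := by exact_mod_cast hq
  have hq1 : (1 : ℝ) ≤ q := by exact_mod_cast hq
  have hr : 0 < (q : ℝ) / ψ q := div_pos hq0 h0
  have hr2 : (2 : ℝ) < (q : ℝ) / ψ q := by
    rw [lt_div_iff₀ h0]; linarith
  have hlog : 0 < Real.logb 2 ((q : ℝ) / ψ q) := Real.logb_pos (by norm_num) (by linarith)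
  set k := level ψ q with hk
  have h2 : Real.logb 2 ((q : ℝ) / ψ q) ≤ k := Nat.le_ceil _
  have h3 : (k : ℝ) < Real.logb 2 ((q : ℝ) / ψ q) + 1 := Nat.ceil_lt_add_one hlog.le
  have h4 : (q : ℝ) / ψ q ≤ (2 : ℝ) ^ k := by
    have := (Real.logb_le_iff_le_rpow (by norm_num : (1:ℝ) < 2) hr).1 h2
    rwa [Real.rpow_natCast] at this
  have h5 : (2 : ℝ) ^ k < 2 * ((q : ℝ) / ψ q) := by
    have h6 : (k : ℝ) - 1 < Real.logb 2 ((q : ℝ) / ψ q) := by linarith
    have h7 := (Real.lt_logb_iff_rpow_lt (by norm_num : (1:ℝ) < 2) hr).1 h6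
    rw [Real.rpow_sub_one (by norm_num), Real.rpow_natCast] at h7
    linarith
  have h2k : (0 : ℝ) < (2 : ℝ) ^ k := by positivity
  have hinv : (1 / 2 : ℝ) ^ k = 1 / (2 : ℝ) ^ k := by rw [one_div_pow]
  constructor
  · rw [hinv, div_le_div_iff₀ h2k hq0, one_mul]
    rw [div_le_iff₀ h0] at h4
    linarith
  · rw [hinv, mul_one_div, div_lt_div_iff₀ hq0 h2k]
    have h8 : (2 : ℝ) ^ k * ψ q < 2 * (q : ℝ) := by
      have := mul_lt_mul_of_pos_right h5 h0
      have h9 : 2 * ((q : ℝ) / ψ q) * ψ q = 2 * q := by field_simp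
      linarith
    linarith

theorem lt_two_pow_level (ψ : ℕ → ℝ) (q : ℕ) (hq : 1 ≤ q) (h0 : 0 < ψ q) (h1 : ψ q < 1 / 2) :
    q < 2 ^ level ψ q := by
  obtain ⟨h2, -⟩ := level_spec ψ q hq h0 h1
  have hq0 : (0 : ℝ) < q := by exact_mod_cast hq
  have h2k : (0 : ℝ) < (2 : ℝ) ^ level ψ q := by positivity
  have h3 : (q : ℝ) < (2 : ℝ) ^ level ψ q := by
    rw [one_div_pow, div_le_div_iff₀ h2k hq0, one_mul] at h2
    nlinarith
  exact_mod_cast h3

theorem limsup_eq (γ : ℝ) (ψ : ℕ → ℝ) :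
    limsup (fun q : ℕ => E γ ψ (Finset.range q) q) atTop = Pool.Agent.IDS.LimSet γ ψ := by
  ext x
  rw [Filter.mem_limsup_iff_frequently_mem]
  unfold Pool.Agent.IDS.LimSet
  simp only [Set.mem_ofPred_eq]
  constructor
  · intro h
    obtain ⟨q, hq⟩ := h.exists
    refine ⟨hq.1, h.mono ?_⟩
    rintro q ⟨-, a, ha, hle⟩
    rw [Finset.mem_range] at ha
    exact ⟨by omega, a, ha, hle⟩
  · rintro ⟨hx, h⟩
    refine h.mono ?_
    rintro q ⟨-, a, ha, hle⟩
    exact ⟨hx, a, Finset.mem_range.2 ha, hle⟩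

/-- `Λ_k = 1 + log (1 + log (k + 1))` -/
noncomputable def Lam (k : ℕ) : ℝ := 1 + Real.log (1 + Real.log ((k : ℝ) + 1))

theorem one_le_Lam (k : ℕ) : 1 ≤ Lam k := by
  unfold Lam
  have h2 : 0 ≤ Real.log ((k : ℝ) + 1) := Real.log_nonneg (by
    have : (0 : ℝ) ≤ k := Nat.cast_nonneg k
    linarith)
  have h3 : 0 ≤ Real.log (1 + Real.log ((k : ℝ) + 1)) := Real.log_nonneg (by linarith)
  linarith

theorem Lam_mono {k x : ℕ} (h : k ≤ x) : Lam k ≤ Lam x := by
  unfold Lam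
  have h0 : (0 : ℝ) ≤ k := Nat.cast_nonneg k
  have h1 : (k : ℝ) ≤ x := by exact_mod_cast h
  have h2 : 0 ≤ Real.log ((k : ℝ) + 1) := Real.log_nonneg (by linarith)
  have h3 : Real.log ((k : ℝ) + 1) ≤ Real.log ((x : ℝ) + 1) :=
    Real.log_le_log (by linarith) (by linarith)
  have h4 : Real.log (1 + Real.log ((k : ℝ) + 1)) ≤ Real.log (1 + Real.log ((x : ℝ) + 1)) :=
    Real.log_le_log (by linarith) (by linarith)
  linarith

open Classical in
/-- the integers of level `k` -/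
noncomputable def Lk (ψ : ℕ → ℝ) (k : ℕ) : Finset ℕ :=
  (Finset.range (2 ^ k)).filter (fun q => (1 ≤ q ∧ 0 < ψ q ∧ ψ q < 1 / 2) ∧ level ψ q = k)

theorem mem_Lk (ψ : ℕ → ℝ) (k q : ℕ) :
    q ∈ Lk ψ k ↔ (1 ≤ q ∧ 0 < ψ q ∧ ψ q < 1 / 2) ∧ level ψ q = k := by
  unfold Lk
  rw [Finset.mem_filter, Finset.mem_range]
  constructor
  · exact fun h => h.2
  · rintro ⟨⟨h1, h2, h3⟩, h4⟩
    refine ⟨?_, ⟨h1, h2, h3⟩, h4⟩
    rw [← h4]
    exact lt_two_pow_level ψ q h1 h2 h3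

/-- the mass of level `k` -/
noncomputable def W (ψ : ℕ → ℝ) (k : ℕ) : ℝ := ∑ q ∈ Lk ψ k, (Nat.totient q : ℝ) * ψ q / q

/-- The exact form: no loss for light levels. -/
theorem light (γ : ℝ) (ψ : ℕ → ℝ)
    (hdiv : ¬ Summable (fun k : ℕ => min (W ψ k) ((Lam k ^ 10240)⁻¹))) :
    volume (limsup (fun q : ℕ => E γ ψ (Finset.range q) q) atTop) = 1 := by
  rw [limsup_eq]
  refine Pool.Agent.IDF.main_light γ ψ Lam one_le_Lam (level ψ)
    (fun q hq h0 h1 => level_spec ψ q hq h0 h1) (fun F k _ => Or.inr le_rfl) (Lk ψ)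
    (mem_Lk ψ) ?_
  have h1 : ∀ k : ℕ, ((Lam k) ^ 5120) ^ 2 = Lam k ^ 10240 := fun k => by rw [← pow_mul]
  simp only [h1]
  exact hdiv

/-- **Inhomogeneous Duffin-Schaeffer property for every real shift and every `ψ` whose series does
not live on a sparse set of levels.**  Let `γ` be any real number and `ψ ≥ 0`, and suppose that for
every sparse set `K` of levels the sum of `φ(q) ψ(q) / q` over the `q` with level not in `K`
diverges.  Then for almost every `x ∈ [0,1]` there are infinitely many `q` with `x ∈ E_q`, where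
`I_q = {0, ..., q-1}`. -/
theorem result (γ : ℝ) (ψ : ℕ → ℝ) (hψ : ∀ q, 0 ≤ ψ q)
    (hdiv : ∀ K : Set ℕ, Sparse K →
      ¬ Summable (Set.indicator {q : ℕ | level ψ q ∉ K}
        (fun q : ℕ => (Nat.totient q : ℝ) * ψ q / q))) :
    volume (limsup (fun q : ℕ => E γ ψ (Finset.range q) q) atTop) = 1 := by
  classical
  by_cases hbig : ∃ᶠ q : ℕ in atTop, 1 / 2 ≤ ψ q
  · rw [limsup_eq]
    exact Pool.Agent.IDF.limset_big γ ψ hbig
  have hsmall : ∀ᶠ q : ℕ in atTop, ψ q < 1 / 2 := by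
    rw [Filter.not_frequently] at hbig
    exact hbig.mono fun q hq => not_le.1 hq
  apply light
  intro hsum
  have hterm0 : ∀ q, 0 ≤ (Nat.totient q : ℝ) * ψ q / q := fun q => by
    have := hψ q
    positivity
  have hW0 : ∀ k, 0 ≤ W ψ k := fun k => Finset.sum_nonneg fun q _ => hterm0 q
  have hLam0 : ∀ k, 0 < Lam k ^ 10240 := fun k =>
    pow_pos (by linarith [one_le_Lam k]) _
  have hmin0 : ∀ k, 0 ≤ min (W ψ k) ((Lam k ^ 10240)⁻¹) := fun k =>
    le_min (hW0 k) (inv_pos.2 (hLam0 k)).le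
  obtain ⟨K, hK⟩ : ∃ K : Set ℕ, K = {k | (Lam k ^ 10240)⁻¹ < W ψ k} := ⟨_, rfl⟩
  have hKm : ∀ k, k ∈ K ↔ (Lam k ^ 10240)⁻¹ < W ψ k := fun k => by rw [hK]; rfl
  refine hdiv K ⟨∑' k, min (W ψ k) ((Lam k ^ 10240)⁻¹), fun x => ?_⟩ ?_
  · -- `K` is sparse
    have hfin : {k : ℕ | k ∈ K ∧ k ≤ x} = ((Finset.range (x + 1)).filter (fun k => k ∈ K) :
        Finset ℕ) := by
      ext k
      simp only [Set.mem_ofPred_eq, Finset.coe_filter, Finset.mem_range]
      constructor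
      · rintro ⟨h1, h2⟩
        exact ⟨by omega, h1⟩
      · rintro ⟨h1, h2⟩
        exact ⟨h2, by omega⟩
    rw [hfin, Set.ncard_coe_finset]
    obtain ⟨F, hF⟩ : ∃ F : Finset ℕ, F = (Finset.range (x + 1)).filter (fun k => k ∈ K) :=
      ⟨_, rfl⟩
    rw [← hF]
    have h1 : (F.card : ℝ) * (Lam x ^ 10240)⁻¹ ≤ ∑' k, min (W ψ k) ((Lam k ^ 10240)⁻¹) := by
      calc (F.card : ℝ) * (Lam x ^ 10240)⁻¹ = ∑ k ∈ F, (Lam x ^ 10240)⁻¹ := by
            rw [Finset.sum_const, nsmul_eq_mul]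
        _ ≤ ∑ k ∈ F, min (W ψ k) ((Lam k ^ 10240)⁻¹) := by
            refine Finset.sum_le_sum fun k hk => ?_
            rw [hF, Finset.mem_filter, Finset.mem_range] at hk
            have h2 := (hKm k).1 hk.2
            rw [min_eq_right h2.le]
            apply inv_anti₀ (hLam0 k)
            exact pow_le_pow_left₀ (by linarith [one_le_Lam k]) (Lam_mono (by omega)) _
        _ ≤ _ := hsum.sum_le_tsum _ (fun k _ => hmin0 k)
    have h3 := mul_le_mul_of_nonneg_right h1 (hLam0 x).le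
    rw [mul_assoc, inv_mul_cancel₀ (hLam0 x).ne', mul_one] at h3
    exact h3
  · -- the sum off `K` converges
    obtain ⟨Q, hQ⟩ := Filter.eventually_atTop.1 hsmall
    set g : ℕ → ℝ := Set.indicator {q : ℕ | level ψ q ∉ K}
      (fun q : ℕ => (Nat.totient q : ℝ) * ψ q / q) with hg
    have hg0 : ∀ q, 0 ≤ g q := fun q => Set.indicator_nonneg (fun q _ => hterm0 q) q
    apply summable_of_sum_le (c := ∑ q ∈ Finset.range (Q + 1), g q +
      ∑' k, min (W ψ k) ((Lam k ^ 10240)⁻¹)) hg0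
    intro u
    have h1 : ∑ q ∈ u, g q = ∑ q ∈ u.filter (fun q => q < Q + 1), g q +
        ∑ q ∈ u.filter (fun q => ¬ q < Q + 1), g q :=
      (Finset.sum_filter_add_sum_filter_not u _ _).symm
    rw [h1]
    apply add_le_add
    · apply Finset.sum_le_sum_of_subset_of_nonneg
      · intro q hq
        exact Finset.mem_range.2 (Finset.mem_filter.1 hq).2
      · intro q _ _
        exact hg0 q
    · obtain ⟨v, hv⟩ : ∃ v : Finset ℕ, v = u.filter (fun q => ¬ q < Q + 1) := ⟨_, rfl⟩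
      rw [← hv]
      have h2 : ∀ q ∈ v, 1 ≤ q ∧ ψ q < 1 / 2 := by
        intro q hq
        rw [hv, Finset.mem_filter] at hq
        exact ⟨by omega, hQ q (by omega)⟩
      have hmap : ∀ q ∈ v, level ψ q ∈ v.image (level ψ) := fun q hq =>
        Finset.mem_image_of_mem _ hq
      rw [← Finset.sum_fiberwise_of_maps_to hmap g]
      refine le_trans (Finset.sum_le_sum (fun k _ => ?_))
        (hsum.sum_le_tsum (v.image (level ψ)) (fun k _ => hmin0 k))
      by_cases hk : k ∈ K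
      · have h3 : ∑ q ∈ v with level ψ q = k, g q = 0 := by
          refine Finset.sum_eq_zero fun q hq => ?_
          rw [hg]
          apply Set.indicator_of_notMem
          simp only [Set.mem_ofPred_eq, not_not]
          rw [(Finset.mem_filter.1 hq).2]
          exact hk
        rw [h3]
        exact hmin0 k
      · have h4 : W ψ k ≤ (Lam k ^ 10240)⁻¹ := not_lt.1 (fun h => hk ((hKm k).2 h))
        rw [min_eq_left h4]
        have h5 : ∑ q ∈ v with level ψ q = k, g q ≤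
            ∑ q ∈ v with level ψ q = k, (Nat.totient q : ℝ) * ψ q / q := by
          refine Finset.sum_le_sum fun q _ => ?_
          exact Set.indicator_le_self' (fun q _ => hterm0 q) q
        refine h5.trans ?_
        have h6 : ∑ q ∈ v with level ψ q = k, (Nat.totient q : ℝ) * ψ q / q =
            ∑ q ∈ (v.filter (fun q => level ψ q = k)).filter (fun q => 0 < ψ q),
              (Nat.totient q : ℝ) * ψ q / q := by
          symm
          apply Finset.sum_subset (Finset.filter_subset _ _)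
          intro q hq hne
          have h7 : ψ q = 0 := by
            by_contra hcon
            exact hne (Finset.mem_filter.2 ⟨hq, lt_of_le_of_ne (hψ q) (Ne.symm hcon)⟩)
          rw [h7, mul_zero, zero_div]
        rw [h6]
        apply Finset.sum_le_sum_of_subset_of_nonneg
        · intro q hq
          obtain ⟨hq1, hq2⟩ := Finset.mem_filter.1 hq
          obtain ⟨hq3, hq4⟩ := Finset.mem_filter.1 hq1
          exact (mem_Lk ψ k q).2 ⟨⟨(h2 q hq3).1, hq2, (h2 q hq3).2⟩, hq4⟩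
        · intro q _ _
          exact hterm0 q

end Pool.Agent.Results.MP_3a832c_nt.DenseLevels
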